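import Pool.Agent.H961R2.Lev.Stubs

set_option autoImplicit false

open MeasureTheory Set Filter Topology InnerProductSpace Complex

namespace H496LevM1

open H961Lev

theorem kp_pos {δ : ℝ} (h0 : 0 < δ) (h1 : δ < 1) : 0 < kp δ := by
  unfold kp
  apply Real.sin_pos_of_pos_of_lt_pi
  · positivity
  · nlinarith [Real.pi_pos]

theorem kp_lt_one {δ : ℝ} (h0 : 0 < δ) (h1 : δ < 1) : kp δ < 1 := by
  unfold kp
  have : Real.sin (Real.pi * δ / 2) < Real.sin (Real.pi / 2) := by
    apply Real.sin_lt_sin_of_lt_of_le_pi_div_two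
    · nlinarith [Real.pi_pos]
    · exact le_refl _
    · nlinarith [Real.pi_pos]
  rwa [Real.sin_pi_div_two] at this

/-- the segment -/
theorem seg (c : ℂ) (k : ℝ) (hk : 0 < k) (h : ‖c - k‖ + ‖c + k‖ ≤ 2 * k) :
    c.im = 0 ∧ -k ≤ c.re ∧ c.re ≤ k := by
  have ha : ‖c - k‖ ^ 2 = (c.re - k) ^ 2 + c.im ^ 2 := by
    rw [← Complex.normSq_eq_norm_sq, Complex.normSq_apply]
    simp; ring
  have hb : ‖c + k‖ ^ 2 = (c.re + k) ^ 2 + c.im ^ 2 := by
    rw [← Complex.normSq_eq_norm_sq, Complex.normSq_apply]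
    simp; ring
  have ha0 := norm_nonneg (c - k)
  have hb0 := norm_nonneg (c + k)
  set a := ‖c - k‖
  set b := ‖c + k‖
  have h1 : a ≤ k - c.re := by
    have : b ^ 2 ≤ (2 * k - a) ^ 2 := by
      apply pow_le_pow_left₀ hb0; linarith
    nlinarith
  have h2 : b ≤ k + c.re := by
    have : a ^ 2 ≤ (2 * k - b) ^ 2 := by
      apply pow_le_pow_left₀ ha0; linarith
    nlinarith
  have h3 : a ^ 2 ≤ (k - c.re) ^ 2 := pow_le_pow_left₀ ha0 h1 2
  have h4 : c.im ^ 2 ≤ 0 := by nlinarith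
  refine ⟨by nlinarith [sq_nonneg c.im, pow_eq_zero_iff (two_ne_zero) |>.1 (le_antisymm h4 (sq_nonneg c.im))], by linarith, by linarith⟩

theorem cos_re (z : ℂ) : (Complex.cos (Real.pi * z)).re
    = Real.cos (Real.pi * z.re) * Real.cosh (Real.pi * z.im) := by
  have : (Real.pi : ℂ) * z = ((Real.pi * z.re : ℝ) : ℂ) + ((Real.pi * z.im : ℝ) : ℂ) * I := by
    apply Complex.ext <;> simp
  rw [this, Complex.cos_add_mul_I]
  simp [← Complex.ofReal_cos, ← Complex.ofReal_sin, ← Complex.ofReal_cosh, ← Complex.ofReal_sinh,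
    -Complex.ofReal_mul]

theorem cos_im (z : ℂ) : (Complex.cos (Real.pi * z)).im
    = - (Real.sin (Real.pi * z.re) * Real.sinh (Real.pi * z.im)) := by
  have : (Real.pi : ℂ) * z = ((Real.pi * z.re : ℝ) : ℂ) + ((Real.pi * z.im : ℝ) : ℂ) * I := by
    apply Complex.ext <;> simp
  rw [this, Complex.cos_add_mul_I]
  simp [← Complex.ofReal_cos, ← Complex.ofReal_sin, ← Complex.ofReal_cosh, ← Complex.ofReal_sinh,
    -Complex.ofReal_mul]

theorem real_case {δ x : ℝ} (h0 : 0 < δ) (h1 : δ < 1)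
    (h : |Real.cos (Real.pi * x)| ≤ kp δ) : x ∈ Eh δ := by
  refine ⟨⌊x⌋, ?_⟩
  set t := x - (⌊x⌋ + 1 / 2) with ht
  have hf1 := Int.floor_le x
  have hf2 := Int.lt_floor_add_one x
  have htb : |t| ≤ 1 / 2 := by rw [abs_le]; constructor <;> linarith
  have hx : Real.pi * x = (Real.pi * t + Real.pi / 2) + ⌊x⌋ * Real.pi := by
    rw [ht]; ring
  have hc : |Real.cos (Real.pi * x)| = Real.sin (Real.pi * |t|) := by
    rw [hx, Real.cos_add_int_mul_pi, Real.cos_add_pi_div_two, abs_mul]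
    have : |((-1 : ℝ)) ^ ⌊x⌋| = 1 := by
      rw [abs_zpow]; simp
    rw [this, one_mul, abs_neg]
    rcases le_total 0 t with h | h
    · rw [abs_of_nonneg h, abs_of_nonneg]
      apply Real.sin_nonneg_of_nonneg_of_le_pi
      · positivity
      · rw [abs_of_nonneg h] at htb; nlinarith [Real.pi_pos]
    · rw [abs_of_nonpos h] at htb ⊢
      rw [mul_neg, Real.sin_neg, abs_of_nonpos]
      apply Real.sin_nonpos_of_nonpos_of_neg_pi_le
      · nlinarith [Real.pi_pos]
      · nlinarith [Real.pi_pos]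
  rw [hc] at h
  by_contra hcon
  push Not at hcon
  have : Real.sin (Real.pi * δ / 2) < Real.sin (Real.pi * |t|) := by
    apply Real.sin_lt_sin_of_lt_of_le_pi_div_two
    · nlinarith [Real.pi_pos]
    · nlinarith [Real.pi_pos]
    · nlinarith [Real.pi_pos]
  unfold kp at h
  linarith

theorem off {δ : ℝ} {z : ℂ} (h0 : 0 < δ) (h1 : δ < 1)
    (hz : z ∉ ((fun x : ℝ => (x : ℂ)) '' (Eh δ))) :
    2 * kp δ < ‖Complex.cos (Real.pi * z) - (kp δ : ℂ)‖ + ‖Complex.cos (Real.pi * z) + (kp δ : ℂ)‖ := by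
  by_contra hcon
  push Not at hcon
  obtain ⟨him, hl, hr⟩ := seg _ _ (kp_pos h0 h1) hcon
  rw [cos_re] at hl hr
  rw [cos_im] at him
  have hy : z.im = 0 := by
    by_contra hy
    have hs : Real.sinh (Real.pi * z.im) ≠ 0 := by
      rw [Ne, Real.sinh_eq_zero]
      exact mul_ne_zero Real.pi_ne_zero hy
    have hsin : Real.sin (Real.pi * z.re) = 0 := by
      have := neg_eq_zero.1 him
      exact (mul_eq_zero.1 this).resolve_right hs
    have hcc : Real.cos (Real.pi * z.re) ^ 2 = 1 := by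
      have := Real.sin_sq_add_cos_sq (Real.pi * z.re)
      rw [hsin] at this; nlinarith
    have hch : 1 < Real.cosh (Real.pi * z.im) := by
      rw [Real.one_lt_cosh]
      exact mul_ne_zero Real.pi_ne_zero hy
    have hk := kp_lt_one h0 h1
    have hk0 := kp_pos h0 h1
    have : (Real.cos (Real.pi * z.re) * Real.cosh (Real.pi * z.im)) ^ 2 ≤ kp δ ^ 2 := by
      apply sq_le_sq'
      · exact hl
      · exact hr
    rw [mul_pow, hcc, one_mul] at this
    nlinarith
  apply hz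
  refine ⟨z.re, ?_, by apply Complex.ext <;> simp [hy]⟩
  apply real_case h0 h1
  rw [hy] at hl hr
  simp at hl hr
  rw [abs_le]
  exact ⟨hl, hr⟩

theorem Ut_pos {δ : ℝ} {z : ℂ} (h0 : 0 < δ) (h1 : δ < 1)
    (hz : z ∉ ((fun x : ℝ => (x : ℂ)) '' (Eh δ))) : 0 < Ut δ z := by
  unfold Ut
  apply div_pos _ Real.pi_pos
  apply Real.arcosh_pos
  have hk := kp_pos h0 h1
  rw [lt_div_iff₀ (by positivity)]
  have := off h0 h1 hz
  linarith

/-- parallelogram trick -/
theorem sum_eq (w s : ℂ) (h : s ^ 2 = w ^ 2 - 1) : ‖w + s‖ + ‖w - s‖ = ‖w - 1‖ + ‖w + 1‖ := by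
  have e1 : (‖w + s‖ + ‖w - s‖) ^ 2 = (‖w - 1‖ + ‖w + 1‖) ^ 2 := by
    have p1 : ‖w + s‖ ^ 2 + ‖w - s‖ ^ 2 = 2 * (‖w‖ ^ 2 + ‖s‖ ^ 2) :=
      parallelogram_law_with_norm ℝ w s
    have p2 : ‖w + 1‖ ^ 2 + ‖w - 1‖ ^ 2 = 2 * (‖w‖ ^ 2 + ‖(1 : ℂ)‖ ^ 2) :=
      parallelogram_law_with_norm ℝ w 1
    have q1 : ‖w + s‖ * ‖w - s‖ = 1 := by
      rw [← norm_mul]
      have : (w + s) * (w - s) = 1 := by linear_combination -h
      rw [this, norm_one]
    have q2 : ‖w + 1‖ * ‖w - 1‖ = ‖s‖ * ‖s‖ := by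
      rw [← norm_mul, ← norm_mul]
      congr 1
      linear_combination -h
    rw [norm_one] at p2
    nlinarith
  have n1 : 0 ≤ ‖w + s‖ + ‖w - s‖ := by positivity
  have n2 : 0 ≤ ‖w - 1‖ + ‖w + 1‖ := by positivity
  exact (sq_eq_sq₀ n1 n2).1 e1

theorem arcosh_eq (w s : ℂ) (h : s ^ 2 = w ^ 2 - 1) :
    Real.arcosh ((‖w - 1‖ + ‖w + 1‖) / 2) = |Real.log ‖w + s‖| := by
  have q1 : ‖w + s‖ * ‖w - s‖ = 1 := by
    rw [← norm_mul]
    have : (w + s) * (w - s) = 1 := by linear_combination -h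
    rw [this, norm_one]
  have hpos : 0 < ‖w + s‖ := by
    rcases (norm_nonneg (w + s)).lt_or_eq with h | h
    · exact h
    · rw [← h] at q1; simp at q1
  have hinv : ‖w - s‖ = ‖w + s‖⁻¹ := by
    field_simp
    linarith
  have : Real.cosh |Real.log ‖w + s‖| = (‖w - 1‖ + ‖w + 1‖) / 2 := by
    rw [Real.cosh_abs, Real.cosh_log hpos, ← hinv, sum_eq w s h]
  rw [← this, Real.arcosh_cosh (abs_nonneg _)]

theorem T_M1 : S_M1 := by
  intro δ z0 h0 h1 hz
  refine ⟨Ut_pos h0 h1 hz, ?_⟩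
  have hk := kp_pos h0 h1
  set k := kp δ with hkdef
  have hkc : (k : ℂ) ≠ 0 := by exact_mod_cast hk.ne'
  let w : ℂ → ℂ := fun z => Complex.cos (Real.pi * z) / k
  have hUt : ∀ z, Ut δ z = Real.arcosh ((‖w z - 1‖ + ‖w z + 1‖) / 2) / Real.pi := by
    intro z
    unfold Ut
    congr 2
    have e1 : w z - 1 = (Complex.cos (Real.pi * z) - k) / k := by
      simp only [w]; field_simp
    have e2 : w z + 1 = (Complex.cos (Real.pi * z) + k) / k := by
      simp only [w]; field_simp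
    rw [e1, e2, norm_div, norm_div, Complex.norm_real, Real.norm_eq_abs, abs_of_pos hk, ← hkdef]
    field_simp
  have hoff := off h0 h1 hz
  have hgt : 2 < ‖w z0 - 1‖ + ‖w z0 + 1‖ := by
    have e1 : w z0 - 1 = (Complex.cos (Real.pi * z0) - k) / k := by
      simp only [w]; field_simp
    have e2 : w z0 + 1 = (Complex.cos (Real.pi * z0) + k) / k := by
      simp only [w]; field_simp
    rw [e1, e2, norm_div, norm_div, Complex.norm_real, Real.norm_eq_abs, abs_of_pos hk, ← add_div,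
      lt_div_iff₀ hk]
    exact hoff
  have hne : w z0 ^ 2 - 1 ≠ 0 := by
    intro h
    have : (w z0 - 1) * (w z0 + 1) = 0 := by linear_combination h
    rcases mul_eq_zero.1 this with h' | h'
    · have e : w z0 = 1 := sub_eq_zero.1 h'
      rw [e] at hgt
      norm_num at hgt
    · have e : w z0 = -1 := eq_neg_of_add_eq_zero_left h'
      rw [e] at hgt
      norm_num at hgt
  obtain ⟨s0, hs0⟩ : ∃ s0 : ℂ, s0 ^ 2 = w z0 ^ 2 - 1 := by
    obtain ⟨s, hs⟩ := IsSquare.exists_sq (w z0 ^ 2 - 1) (Complex.isSquare _) 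
    exact ⟨s, hs.symm⟩
  have hs0ne : s0 ≠ 0 := by
    rintro rfl
    apply hne
    rw [← hs0]; ring
  let u : ℂ → ℂ := fun z => (w z ^ 2 - 1) / (w z0 ^ 2 - 1)
  let s : ℂ → ℂ := fun z => s0 * Complex.exp (Complex.log (u z) / 2)
  have hwan : AnalyticAt ℂ w z0 := by
    simp only [w]
    fun_prop
  have hu0 : u z0 = 1 := by simp only [u]; exact div_self hne
  have huan : AnalyticAt ℂ u z0 := by
    simp only [u]
    exact ((hwan.pow 2).sub analyticAt_const).div_const
  have hlog : AnalyticAt ℂ (fun z => Complex.log (u z)) z0 := by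
    apply huan.clog
    rw [hu0]
    exact Complex.one_mem_slitPlane
  have hsan : AnalyticAt ℂ s z0 := by
    simp only [s]
    exact analyticAt_const.mul (hlog.div_const).cexp
  have hune : ∀ᶠ z in 𝓝 z0, u z ≠ 0 := by
    apply huan.continuousAt.eventually_ne
    rw [hu0]; exact one_ne_zero
  have hsq : ∀ᶠ z in 𝓝 z0, s z ^ 2 = w z ^ 2 - 1 := by
    filter_upwards [hune] with z hz'
    simp only [s]
    rw [mul_pow, ← Complex.exp_nat_mul]
    have : ((2 : ℕ) : ℂ) * (Complex.log (u z) / 2) = Complex.log (u z) := by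
      push_cast; ring
    rw [this, Complex.exp_log hz', hs0]
    simp only [u]
    field_simp
  have hfan : AnalyticAt ℂ (fun z => w z + s z) z0 := hwan.add hsan
  have hfne : w z0 + s z0 ≠ 0 := by
    intro h
    have h2 := hsq.self_of_nhds
    have : (w z0 + s z0) * (w z0 - s z0) = 1 := by linear_combination -h2
    rw [h, zero_mul] at this
    exact zero_ne_one this
  have hharm := hfan.harmonicAt_log_norm hfne
  have hlogne : Real.log ‖w z0 + s z0‖ ≠ 0 := by
    intro h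
    have h2 := arcosh_eq (w z0) (s z0) hsq.self_of_nhds
    rw [h, abs_zero, Real.arcosh_eq_zero_iff] at h2
    · linarith
    · linarith
  have hcont : ContinuousAt (fun z => Real.log ‖w z + s z‖) z0 := by
    apply ContinuousAt.log
    · exact hfan.continuousAt.norm
    · simpa using hfne
  rcases lt_or_gt_of_ne hlogne with hneg | hpos
  · have hev : ∀ᶠ z in 𝓝 z0, Real.log ‖w z + s z‖ < 0 := hcont.eventually_lt_const hneg
    have he : Ut δ =ᶠ[𝓝 z0] ((-1 / Real.pi) • (fun z => Real.log ‖w z + s z‖)) := by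
      filter_upwards [hev, hsq] with z h1' h2'
      rw [hUt, arcosh_eq _ _ h2', abs_of_neg h1']
      simp only [Pi.smul_apply, smul_eq_mul]
      ring
    rw [harmonicAt_congr_nhds he]
    exact hharm.const_smul
  · have hev : ∀ᶠ z in 𝓝 z0, 0 < Real.log ‖w z + s z‖ := hcont.eventually_const_lt hpos
    have he : Ut δ =ᶠ[𝓝 z0] ((1 / Real.pi) • (fun z => Real.log ‖w z + s z‖)) := by
      filter_upwards [hev, hsq] with z h1' h2'
      rw [hUt, arcosh_eq _ _ h2', abs_of_pos h1']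
      simp only [Pi.smul_apply, smul_eq_mul]
      ring
    rw [harmonicAt_congr_nhds he]
    exact hharm.const_smul

end H496LevM1
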